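import Mathlib
set_option autoImplicit false
set_option linter.all false

namespace H8OD

section core
variable {G : Type*} [Group G] [LinearOrder G] [MulLeftMono G] [MulRightMono G]

theorem conj_lt {x a b : G} (h : a < b) : x * a * x⁻¹ < x * b * x⁻¹ :=
  mul_lt_mul_left (mul_lt_mul_right h x) _

theorem conj_le {x a b : G} (h : a ≤ b) : x * a * x⁻¹ ≤ x * b * x⁻¹ := by
  rcases h.lt_or_eq with h | h
  · exact (conj_lt h).le
  · rw [h]

theorem conj_lt_iff {x a b : G} : x * a * x⁻¹ < x * b * x⁻¹ ↔ a < b := by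
  constructor
  · intro h
    have := conj_lt (x := x⁻¹) h
    simpa [mul_assoc] using this
  · exact conj_lt

/-- first commutator lemma: one direction -/
theorem cl_aux {a y d : G} (ha : 1 < a) (hd : y * a * y⁻¹ = d * a) (hd1 : 1 < d) (M : ℕ)
    (hM : ∀ n : ℕ, y ^ n * a * (y ^ n)⁻¹ ≤ a ^ M) (k : ℕ) : d ^ k < a := by
  by_contra hk
  push Not at hk
  have hk0 : k ≠ 0 := by
    rintro rfl
    simp at hk
    exact absurd hk (not_le_of_gt ha)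
  -- c n t = y^n t y^-n
  have hstep : ∀ n : ℕ, ∀ t : G, y ^ (n+1) * t * (y ^ (n+1))⁻¹ = y ^ n * (y * t * y⁻¹) * (y ^ n)⁻¹ := by
    intro n t
    rw [pow_succ]; group
  -- a ≤ c n a
  have h1 : ∀ n : ℕ, a ≤ y ^ n * a * (y ^ n)⁻¹ := by
    intro n
    induction n with
    | zero => simp
    | succ n ih =>
      rw [hstep, hd]
      refine ih.trans (conj_le ?_)
      exact le_mul_of_one_le_left' hd1.le
  -- minimal conj of d
  obtain ⟨j0, hj0, hmin⟩ := Finset.exists_min_image (Finset.range k) (fun j => y ^ j * d * (y ^ j)⁻¹)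
    ⟨0, by simpa using Nat.pos_of_ne_zero hk0⟩
  set δ := y ^ j0 * d * (y ^ j0)⁻¹ with hδ
  have hδk : a ≤ δ ^ k := by
    rw [hδ, conj_pow]
    exact (h1 j0).trans (conj_le hk)
  have h2 : ∀ j : ℕ, j ≤ k → δ ^ j * a ≤ y ^ j * a * (y ^ j)⁻¹ := by
    intro j
    induction j with
    | zero => intro _; simp
    | succ j ih =>
      intro hj
      rw [hstep, hd]
      have e : y ^ j * (d * a) * (y ^ j)⁻¹ = (y ^ j * d * (y ^ j)⁻¹) * (y ^ j * a * (y ^ j)⁻¹) := by group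
      rw [e, pow_succ', mul_assoc]
      exact mul_le_mul' (hmin j (by simpa using hj)) (ih (by omega))
  have h3 : a ^ 2 ≤ y ^ k * a * (y ^ k)⁻¹ := by
    rw [pow_two]
    exact (mul_le_mul' hδk le_rfl).trans (h2 k le_rfl)
  have h4 : ∀ n : ℕ, a ^ (2 ^ n) ≤ y ^ (k * n) * a * (y ^ (k * n))⁻¹ := by
    intro n
    induction n with
    | zero => simp
    | succ n ih =>
      have e : y ^ (k * (n + 1)) * a * (y ^ (k * (n+1)))⁻¹ = y ^ (k * n) * (y ^ k * a * (y ^ k)⁻¹) * (y ^ (k * n))⁻¹ := by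
        rw [mul_add, pow_add, mul_one]; group
      rw [e]
      refine le_trans ?_ (conj_le h3)
      have e2 : y ^ (k * n) * a ^ 2 * (y ^ (k * n))⁻¹ = (y ^ (k * n) * a * (y ^ (k * n))⁻¹) ^ 2 := by rw [conj_pow]
      rw [e2, pow_succ, pow_mul]
      exact pow_le_pow_left' ih 2
  have h5 := (h4 M).trans (hM (k * M))
  have h6 : a ^ M < a ^ (2 ^ M) := pow_lt_pow_right' ha Nat.lt_two_pow_self
  exact absurd h5 (not_le_of_gt h6)

/-- orbit bound -/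
theorem orbit {a y : G} (ha : 1 < a) (h1 : y ≤ a) (h2 : y⁻¹ ≤ a) :
    ∃ M : ℕ, ∀ n : ℕ, y ^ n * a * (y ^ n)⁻¹ ≤ a ^ M ∧ (y⁻¹) ^ n * a * ((y⁻¹) ^ n)⁻¹ ≤ a ^ M := by
  by_cases h : ∀ m : ℕ, y ^ m < a ∧ (y⁻¹) ^ m < a
  · refine ⟨3, fun n => ?_⟩
    have e : a ^ 3 = a * a * a := by rw [pow_succ, pow_two]
    rw [e]
    constructor
    · have h3 := (h n).1; have h4 := (h n).2
      rw [inv_pow] at h4
      exact mul_le_mul' (mul_le_mul' h3.le le_rfl) h4.le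
    · have h3 := (h n).1; have h4 := (h n).2
      refine mul_le_mul' (mul_le_mul' h4.le le_rfl) ?_
      rw [inv_pow, inv_inv]; exact h3.le
  · push Not at h
    obtain ⟨m, hm⟩ := h
    have key : ∀ z : G, (z = y ∨ z = y⁻¹) → a ≤ z ^ m →
        ∀ n : ℕ, y ^ n * a * (y ^ n)⁻¹ ≤ a ^ m ∧ (y⁻¹) ^ n * a * ((y⁻¹) ^ n)⁻¹ ≤ a ^ m := by
      intro z hz hzm n
      have hza : z ^ m ≤ a ^ m := by
        rcases hz with rfl | rfl
        · exact pow_le_pow_left' h1 m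
        · exact pow_le_pow_left' h2 m
      constructor
      · refine (conj_le hzm).trans ?_
        have : y ^ n * z ^ m * (y ^ n)⁻¹ = z ^ m := by
          rcases hz with rfl | rfl
          · rw [← pow_add, add_comm, pow_add]; group
          · group
        rw [this]; exact hza
      · refine (conj_le hzm).trans ?_
        have : (y⁻¹) ^ n * z ^ m * ((y⁻¹) ^ n)⁻¹ = z ^ m := by
          rcases hz with rfl | rfl <;> group
        rw [this]; exact hza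
    by_cases hy : y ^ m < a
    · exact ⟨m, key y⁻¹ (Or.inr rfl) (hm hy)⟩
    · exact ⟨m, key y (Or.inl rfl) (not_lt.1 hy)⟩

theorem cl_main {a y : G} (ha : 1 < a) (h1 : y ≤ a) (h2 : y⁻¹ ≤ a) (k : ℕ) :
    (y * a * y⁻¹ * a⁻¹) ^ k < a ∧ ((y * a * y⁻¹ * a⁻¹)⁻¹) ^ k < a := by
  obtain ⟨M, hM⟩ := orbit ha h1 h2
  set d := y * a * y⁻¹ * a⁻¹ with hd
  have hda : y * a * y⁻¹ = d * a := by rw [hd]; group
  rcases lt_trichotomy d 1 with h | h | h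
  · have hd1 : d⁻¹ > 1 := one_lt_inv'.2 h
    constructor
    · exact lt_of_le_of_lt (pow_le_one' h.le k) ha
    · have hd2 : 1 < y⁻¹ * d⁻¹ * y := by
        have := conj_lt (x := y⁻¹) hd1
        simpa using this
      have h3 := cl_aux (a := a) (y := y⁻¹) (d := y⁻¹ * d⁻¹ * y) ha (by rw [hd]; group) hd2 M (fun n => (hM n).2) k
      have e : (y⁻¹ * d⁻¹ * y) ^ k = y⁻¹ * (d⁻¹) ^ k * y⁻¹⁻¹ := by
        rw [show y⁻¹ * d⁻¹ * y = y⁻¹ * d⁻¹ * y⁻¹⁻¹ by rw [inv_inv], conj_pow]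
      rw [e] at h3
      have h4 := conj_lt (x := y) h3
      have e2 : y * (y⁻¹ * (d⁻¹) ^ k * y⁻¹⁻¹) * y⁻¹ = (d⁻¹) ^ k := by group
      rw [e2, hda] at h4
      refine h4.trans_le ?_
      exact mul_le_of_le_one_left' h.le
  · rw [h]; simp [ha]
  · refine ⟨cl_aux ha hda h M (fun n => (hM n).1) k, ?_⟩
    refine lt_of_le_of_lt (pow_le_one' ?_ k) ha
    exact (inv_lt_one'.2 h).le

/-- the commutator of two elements is infinitely small with respect to their maximum -/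
theorem cl {b x y : G} (hb : 1 < b) (hx : x ≤ b) (hx' : x⁻¹ ≤ b) (hy : y ≤ b) (hy' : y⁻¹ ≤ b) (k : ℕ) :
    (x * y * x⁻¹ * y⁻¹) ^ k < b ∧ ((x * y * x⁻¹ * y⁻¹)⁻¹) ^ k < b := by
  -- key: if |y| ≤ |x|
  have key : ∀ x y a : G, 1 < a → (a = x ∨ a = x⁻¹) → y ≤ a → y⁻¹ ≤ a → ∀ k : ℕ,
      (x * y * x⁻¹ * y⁻¹) ^ k < a ∧ ((x * y * x⁻¹ * y⁻¹)⁻¹) ^ k < a := by
    intro x y a ha hax h1 h2 k
    have h3 := cl_main ha h1 h2 k
    rcases hax with rfl | rfl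
    · refine ⟨?_, ?_⟩
      · convert h3.2 using 2; group
      · convert h3.1 using 2; group
    · have e1 : x * y * x⁻¹ * y⁻¹ = x * (y * x⁻¹ * y⁻¹ * x⁻¹⁻¹) * x⁻¹ := by group
      have e2 : (x * y * x⁻¹ * y⁻¹)⁻¹ = x * (y * x⁻¹ * y⁻¹ * x⁻¹⁻¹)⁻¹ * x⁻¹ := by group
      have e3 : x * x⁻¹ * x⁻¹ = x⁻¹ := by group
      constructor
      · rw [e1, conj_pow]
        have := conj_lt (x := x) h3.1
        rwa [e3] at this
      · rw [e2, conj_pow]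
        have := conj_lt (x := x) h3.2
        rwa [e3] at this
  by_cases hx1 : x = 1
  · subst hx1; simp [hb]
  by_cases hy1 : y = 1
  · subst hy1; simp [hb]
  obtain ⟨a, ha, hax, hxa, hxa', hab⟩ : ∃ a, 1 < a ∧ (a = x ∨ a = x⁻¹) ∧ x ≤ a ∧ x⁻¹ ≤ a ∧ a ≤ b := by
    rcases lt_or_gt_of_ne hx1 with h | h
    · exact ⟨x⁻¹, one_lt_inv'.2 h, Or.inr rfl, (h.trans (one_lt_inv'.2 h)).le, le_rfl, hx'⟩
    · exact ⟨x, h, Or.inl rfl, le_rfl, ((inv_lt_one'.2 h).trans h).le, hx⟩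
  obtain ⟨c, hc, hcy, hyc, hyc', hcb⟩ : ∃ a, 1 < a ∧ (a = y ∨ a = y⁻¹) ∧ y ≤ a ∧ y⁻¹ ≤ a ∧ a ≤ b := by
    rcases lt_or_gt_of_ne hy1 with h | h
    · exact ⟨y⁻¹, one_lt_inv'.2 h, Or.inr rfl, (h.trans (one_lt_inv'.2 h)).le, le_rfl, hy'⟩
    · exact ⟨y, h, Or.inl rfl, le_rfl, ((inv_lt_one'.2 h).trans h).le, hy⟩
  rcases le_total c a with hca | hca
  · have h3 := key x y a ha hax (hyc.trans hca) (hyc'.trans hca) k
    exact ⟨h3.1.trans_le hab, h3.2.trans_le hab⟩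
  · have h3 := key y x c hc hcy (hxa.trans hca) (hxa'.trans hca) k
    have e1 : x * y * x⁻¹ * y⁻¹ = (y * x * y⁻¹ * x⁻¹)⁻¹ := by group
    have e2 : (x * y * x⁻¹ * y⁻¹)⁻¹ = y * x * y⁻¹ * x⁻¹ := by group
    rw [e2, e1]
    exact ⟨h3.2.trans_le hcb, h3.1.trans_le hcb⟩


/-- the iterated commutator `[x,[x,...[x,g]]]` -/
def E (x g : G) : ℕ → G
  | 0 => g
  | (k + 1) => x * E x g k * x⁻¹ * (E x g k)⁻¹

/-- subgroup of the elements bounded by powers of `β` -/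
def Cv (β : G) : Subgroup G where
  carrier := {y | ∃ m : ℕ, y ≤ β ^ m ∧ y⁻¹ ≤ β ^ m}
  one_mem' := ⟨0, by simp⟩
  mul_mem' := by
    rintro a b ⟨m, h1, h2⟩ ⟨n, h3, h4⟩
    refine ⟨m + n, ?_, ?_⟩
    · rw [pow_add]; exact mul_le_mul' h1 h3
    · rw [mul_inv_rev, add_comm, pow_add]; exact mul_le_mul' h4 h2
  inv_mem' := by
    rintro a ⟨m, h1, h2⟩
    exact ⟨m, h2, by rwa [inv_inv]⟩

theorem E_form (x g : G) : ∀ k : ℕ,
    (x ^ k * g * (x ^ k)⁻¹)⁻¹ * E x g k ∈ Subgroup.closure {t | ∃ j < k, t = x ^ j * g * (x ^ j)⁻¹} := by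
  intro k
  induction k with
  | zero => simp [E, Subgroup.one_mem]
  | succ k ih =>
    set w := (x ^ k * g * (x ^ k)⁻¹)⁻¹ * E x g k with hw
    have hE : E x g k = (x ^ k * g * (x ^ k)⁻¹) * w := by rw [hw]; group
    have e : (x ^ (k+1) * g * (x ^ (k+1))⁻¹)⁻¹ * E x g (k+1) = (x * w * x⁻¹) * w⁻¹ * (x ^ k * g * (x ^ k)⁻¹)⁻¹ := by
      show (x ^ (k+1) * g * (x ^ (k+1))⁻¹)⁻¹ * (x * E x g k * x⁻¹ * (E x g k)⁻¹) = _
      rw [hE, pow_succ']; group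
    rw [e]
    have hmono : Subgroup.closure {t | ∃ j < k, t = x ^ j * g * (x ^ j)⁻¹} ≤
        Subgroup.closure {t | ∃ j < k + 1, t = x ^ j * g * (x ^ j)⁻¹} := by
      apply Subgroup.closure_mono
      rintro t ⟨j, hj, rfl⟩
      exact ⟨j, by omega, rfl⟩
    have hconj : Subgroup.closure {t | ∃ j < k, t = x ^ j * g * (x ^ j)⁻¹} ≤
        (Subgroup.closure {t | ∃ j < k + 1, t = x ^ j * g * (x ^ j)⁻¹}).comap (MulAut.conj x).toMonoidHom := by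
      rw [Subgroup.closure_le]
      rintro t ⟨j, hj, rfl⟩
      simp only [SetLike.mem_coe, Subgroup.mem_comap, MulEquiv.coe_toMonoidHom, MulAut.conj_apply]
      apply Subgroup.subset_closure
      refine ⟨j + 1, by omega, ?_⟩
      rw [pow_succ']; group
    refine Subgroup.mul_mem _ (Subgroup.mul_mem _ ?_ (Subgroup.inv_mem _ (hmono ih))) (Subgroup.inv_mem _ ?_)
    · have := hconj ih
      simpa only [Subgroup.mem_comap, MulEquiv.coe_toMonoidHom, MulAut.conj_apply] using this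
    · exact Subgroup.subset_closure ⟨k, by omega, rfl⟩

/-- lemma (A) -/
theorem lemA (A : Subgroup G) (hA : A.Normal) (hab : ∀ a ∈ A, ∀ b ∈ A, a * b = b * a)
    {g b v : G} (hb : b ∈ A) (hv : v ∈ A) (h1 : g ≤ b) (h2 : g⁻¹ ≤ b) (hb1 : 1 < b) (k : ℕ) :
    (g * v * g⁻¹ * v⁻¹) ^ k < b ∧ ((g * v * g⁻¹ * v⁻¹)⁻¹) ^ k < b := by
  set u := g * v * g⁻¹ * v⁻¹ with hu
  have hgv : g * v * g⁻¹ ∈ A := hA.conj_mem v hv g
  have hpow : ∀ n : ℕ, u ^ n = g * (v ^ n * g⁻¹ * (v ^ n)⁻¹) := by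
    intro n
    rw [hu, (show Commute (g * v * g⁻¹) v⁻¹ from hab _ hgv _ (A.inv_mem hv)).mul_pow, conj_pow]
    group
  have hbd : ∀ n : ℕ, u ^ n ≤ b ^ 2 ∧ (u⁻¹) ^ n ≤ b ^ 2 := by
    intro n
    have hc : ∀ t : G, t ≤ b → v ^ n * t * (v ^ n)⁻¹ ≤ b := by
      intro t ht
      have := conj_le (x := v ^ n) ht
      rwa [(show v ^ n * b * (v ^ n)⁻¹ = b by rw [hab _ (A.pow_mem hv n) _ hb]; group)] at this
    constructor
    · rw [hpow, pow_two]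
      exact mul_le_mul' h1 (hc _ h2)
    · rw [inv_pow, hpow, pow_two, mul_inv_rev]
      refine mul_le_mul' ?_ h2
      have e : (v ^ n * g⁻¹ * (v ^ n)⁻¹)⁻¹ = v ^ n * g * (v ^ n)⁻¹ := by group
      rw [e]; exact hc _ h1
  constructor
  · by_contra h
    push Not at h
    have h3 := (hbd (k * 3)).1
    rw [pow_mul] at h3
    have h4 := (pow_le_pow_left' h 3).trans h3
    exact absurd h4 (not_le_of_gt (pow_lt_pow_right' hb1 (by norm_num)))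
  · by_contra h
    push Not at h
    have h3 := (hbd (k * 3)).2
    rw [pow_mul] at h3
    have h4 := (pow_le_pow_left' h 3).trans h3
    exact absurd h4 (not_le_of_gt (pow_lt_pow_right' hb1 (by norm_num)))


theorem mono_chain {x b : G} (h : b ≤ x * b * x⁻¹) (c j : ℕ) (hj : j ≤ c) :
    x ^ j * b * (x ^ j)⁻¹ ≤ x ^ c * b * (x ^ c)⁻¹ := by
  induction c with
  | zero => obtain rfl : j = 0 := by omega
            exact le_rfl
  | succ c ih =>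
    rcases Nat.lt_or_ge j (c + 1) with h1 | h1
    · refine (ih (by omega)).trans ?_
      have e : x ^ (c + 1) * b * (x ^ (c + 1))⁻¹ = x ^ c * (x * b * x⁻¹) * (x ^ c)⁻¹ := by
        rw [pow_succ]; group
      rw [e]; exact conj_le h
    · obtain rfl : j = c + 1 := by omega
      exact le_rfl

theorem word_bd {x b g : G} (h : b ≤ x * b * x⁻¹) (h1 : g ≤ b) (h2 : g⁻¹ ≤ b) (c : ℕ) :
    (x ^ (c+1) * g * (x ^ (c+1))⁻¹)⁻¹ * E x g (c+1) ∈ Cv (x ^ c * b * (x ^ c)⁻¹) := by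
  have h3 := E_form x g (c+1)
  refine (Subgroup.closure_le _).2 ?_ h3
  rintro t ⟨j, hj, rfl⟩
  refine ⟨1, ?_, ?_⟩
  · rw [pow_one]; exact (conj_le h1).trans (mono_chain h c j (by omega))
  · rw [pow_one]
    have e : (x ^ j * g * (x ^ j)⁻¹)⁻¹ = x ^ j * g⁻¹ * (x ^ j)⁻¹ := by group
    rw [e]; exact (conj_le h2).trans (mono_chain h c j (by omega))

theorem beta_le {x b u : G} {n : ℕ} (h : b ≤ x * u ^ n * x⁻¹) (c : ℕ) :
    x ^ c * b * (x ^ c)⁻¹ ≤ (x ^ (c+1) * u * (x ^ (c+1))⁻¹) ^ n := by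
  rw [conj_pow]
  have e : x ^ (c + 1) * u ^ n * (x ^ (c + 1))⁻¹ = x ^ c * (x * u ^ n * x⁻¹) * (x ^ c)⁻¹ := by
    rw [pow_succ]; group
  rw [e]; exact conj_le h

theorem conj_gt_one {x b : G} (h : 1 < b) : 1 < x * b * x⁻¹ := by
  have := conj_lt (x := x) h
  simpa using this

variable (A J : Subgroup G) (hA : A.Normal) (hJ : J.Normal) (hab : ∀ a ∈ A, ∀ b ∈ A, a * b = b * a)
  (c : ℕ) (hc : ∀ x g : G, E x g c ∈ A)
  (hmin : ∀ u ∈ J, 1 < u → ∀ b ∈ J, ∃ x : G, ∃ n : ℕ, b ≤ x * u ^ n * x⁻¹)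

include hA hJ hab hc hmin in
theorem claim1 : ∀ g ∈ J, ∀ v ∈ A, g * v = v * g := by
  intro g hg v hv
  by_contra hne
  have hc' : ∀ x g : G, E x g (c+1) ∈ A := fun x g =>
    A.mul_mem (hA.conj_mem _ (hc x g) x) (A.inv_mem (hc x g))
  set u0 := g * v * g⁻¹ * v⁻¹ with hu0
  have hu0A : u0 ∈ A := A.mul_mem (hA.conj_mem v hv g) (A.inv_mem hv)
  have hu0J : u0 ∈ J := by
    have e : u0 = g * (v * g⁻¹ * v⁻¹) := by rw [hu0]; group
    rw [e]; exact J.mul_mem hg (hJ.conj_mem _ (J.inv_mem hg) v)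
  have hu01 : u0 ≠ 1 := by
    intro h
    apply hne
    have e : g * v = u0 * (v * g) := by rw [hu0]; group
    rw [e, h, one_mul]
  have hg1 : g ≠ 1 := by rintro rfl; exact hne (by simp)
  have hmax : 1 < max g g⁻¹ := by
    rcases lt_or_gt_of_ne hg1 with h | h
    · exact lt_max_of_lt_right (one_lt_inv'.2 h)
    · exact lt_max_of_lt_left h
  have hmaxJ : max g g⁻¹ ∈ J := by
    rcases max_choice g g⁻¹ with h | h <;> rw [h]
    · exact hg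
    · exact J.inv_mem hg
  obtain ⟨u, hu1, huu⟩ : ∃ u, 1 < u ∧ (u = u0 ∨ u = u0⁻¹) := by
    rcases lt_or_gt_of_ne hu01 with h | h
    · exact ⟨_, one_lt_inv'.2 h, Or.inr rfl⟩
    · exact ⟨_, h, Or.inl rfl⟩
  have huA : u ∈ A := by rcases huu with rfl | rfl; exacts [hu0A, A.inv_mem hu0A]
  have huJ : u ∈ J := by rcases huu with rfl | rfl; exacts [hu0J, J.inv_mem hu0J]
  obtain ⟨x0, n0, hx0⟩ := hmin u huJ hu1 _ hmaxJ
  set b := x0 * u ^ n0 * x0⁻¹ with hb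
  have hbA : b ∈ A := hA.conj_mem _ (A.pow_mem huA _) _
  have hbJ : b ∈ J := hJ.conj_mem _ (J.pow_mem huJ _) _
  have hb1 : 1 < b := hmax.trans_le hx0
  have hgb : g ≤ b := (le_max_left _ _).trans hx0
  have hgb' : g⁻¹ ≤ b := (le_max_right _ _).trans hx0
  have hub : ∀ k : ℕ, u ^ k < b := by
    intro k
    have := lemA A hA hab hbA hv hgb hgb' hb1 k
    rcases huu with h | h
    · rw [h]; exact this.1
    · rw [h]; exact this.2
  obtain ⟨x, n, hx⟩ := hmin u huJ hu1 b hbJ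
  have hbx : b ≤ x * b * x⁻¹ := hx.trans (conj_le (hub n).le)
  obtain ⟨m, hm1, hm2⟩ := word_bd hbx hgb hgb' c
  set β := x ^ c * b * (x ^ c)⁻¹ with hβ
  have hβ1 : 1 < β := conj_gt_one hb1
  set w := (x ^ (c+1) * g * (x ^ (c+1))⁻¹)⁻¹ * E x g (c+1) with hw
  have hβA : β ^ (m+1) ∈ A := A.pow_mem (hA.conj_mem _ hbA _) _
  have hσv : x ^ (c+1) * v * (x ^ (c+1))⁻¹ ∈ A := hA.conj_mem _ hv _
  have hle : β ^ m ≤ β ^ (m+1) := pow_le_pow_right' hβ1.le (by omega)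
  have hfin := lemA A hA hab (g := w⁻¹) hβA hσv (hm2.trans hle) (by rw [inv_inv]; exact hm1.trans hle)
    (one_lt_pow' hβ1 (by omega)) (n * (m + 1))
  have hcomm : w⁻¹ * (x ^ (c+1) * v * (x ^ (c+1))⁻¹) * w⁻¹⁻¹ * (x ^ (c+1) * v * (x ^ (c+1))⁻¹)⁻¹ =
      x ^ (c+1) * u0 * (x ^ (c+1))⁻¹ := by
    set σv := x ^ (c+1) * v * (x ^ (c+1))⁻¹ with hσvd
    set σg := x ^ (c+1) * g * (x ^ (c+1))⁻¹ with hσg
    have e1 : x ^ (c+1) * u0 * (x ^ (c+1))⁻¹ = σg * σv * σg⁻¹ * σv⁻¹ := by rw [hu0, hσvd, hσg]; group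
    have e2 : σg = E x g (c+1) * w⁻¹ := by rw [hw]; group
    have e3 : w⁻¹ * σv * w ∈ A := by
      have := hA.conj_mem _ hσv w⁻¹
      rwa [inv_inv] at this
    have e4 : E x g (c+1) * (w⁻¹ * σv * w) * (E x g (c+1))⁻¹ = w⁻¹ * σv * w := by
      rw [hab _ (hc' x g) _ e3]; group
    rw [e1, e2]
    calc w⁻¹ * σv * w⁻¹⁻¹ * σv⁻¹ = (w⁻¹ * σv * w) * σv⁻¹ := by rw [inv_inv]
      _ = (E x g (c+1) * (w⁻¹ * σv * w) * (E x g (c+1))⁻¹) * σv⁻¹ := by rw [e4]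
      _ = _ := by group
  rw [hcomm] at hfin
  have hfin2 : (x ^ (c+1) * u * (x ^ (c+1))⁻¹) ^ (n * (m + 1)) < β ^ (m + 1) := by
    rcases huu with h | h
    · rw [h]; exact hfin.1
    · rw [h]
      have e : x ^ (c+1) * u0⁻¹ * (x ^ (c+1))⁻¹ = (x ^ (c+1) * u0 * (x ^ (c+1))⁻¹)⁻¹ := by group
      rw [e]; exact hfin.2
  have h9 := pow_le_pow_left' (beta_le hx c) (m + 1)
  rw [← pow_mul] at h9
  exact absurd hfin2 (not_lt_of_ge h9)

include hA hJ hab hc hmin in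
theorem claim2 : ∀ g ∈ J, ∀ h ∈ J, g * h = h * g := by
  intro g hg h hh
  by_contra hne
  have hcl1 := claim1 A J hA hJ hab c hc hmin
  have hc' : ∀ x g : G, E x g (c+1) ∈ A := fun x g =>
    A.mul_mem (hA.conj_mem _ (hc x g) x) (A.inv_mem (hc x g))
  have hEJ : ∀ x g : G, g ∈ J → ∀ k, E x g k ∈ J := by
    intro x g hg k
    induction k with
    | zero => exact hg
    | succ k ih => exact J.mul_mem (hJ.conj_mem _ ih x) (J.inv_mem ih)
  set u0 := g * h * g⁻¹ * h⁻¹ with hu0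
  have hu0J : u0 ∈ J := J.mul_mem (J.mul_mem (J.mul_mem hg hh) (J.inv_mem hg)) (J.inv_mem hh)
  have hu01 : u0 ≠ 1 := by
    intro h'
    apply hne
    have e : g * h = u0 * (h * g) := by rw [hu0]; group
    rw [e, h', one_mul]
  have hg1 : g ≠ 1 := by rintro rfl; exact hne (by simp)
  set b := max (max g g⁻¹) (max h h⁻¹) with hb
  have hmax : 1 < b := by
    rcases lt_or_gt_of_ne hg1 with h | h
    · exact lt_max_of_lt_left (lt_max_of_lt_right (one_lt_inv'.2 h))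
    · exact lt_max_of_lt_left (lt_max_of_lt_left h)
  have hmaxJ : ∀ g ∈ J, max g g⁻¹ ∈ J := by
    intro g hg
    rcases max_choice g g⁻¹ with h | h <;> rw [h]
    · exact hg
    · exact J.inv_mem hg
  have hbJ : b ∈ J := by
    rcases max_choice (max g g⁻¹) (max h h⁻¹) with h' | h'
    · rw [hb, h']; exact hmaxJ _ hg
    · rw [hb, h']; exact hmaxJ _ hh
  have hgb : g ≤ b := (le_max_left _ _).trans (le_max_left _ _)
  have hgb' : g⁻¹ ≤ b := (le_max_right _ _).trans (le_max_left _ _)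
  have hhb : h ≤ b := (le_max_left _ _).trans (le_max_right _ _)
  have hhb' : h⁻¹ ≤ b := (le_max_right _ _).trans (le_max_right _ _)
  obtain ⟨u, hu1, huu⟩ : ∃ u, 1 < u ∧ (u = u0 ∨ u = u0⁻¹) := by
    rcases lt_or_gt_of_ne hu01 with h | h
    · exact ⟨_, one_lt_inv'.2 h, Or.inr rfl⟩
    · exact ⟨_, h, Or.inl rfl⟩
  have huJ : u ∈ J := by rcases huu with rfl | rfl; exacts [hu0J, J.inv_mem hu0J]
  have hub : ∀ k : ℕ, u ^ k < b := by
    intro k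
    have := cl hmax hgb hgb' hhb hhb' k
    rcases huu with h | h
    · rw [h]; exact this.1
    · rw [h]; exact this.2
  obtain ⟨x, n, hx⟩ := hmin u huJ hu1 b hbJ
  have hbx : b ≤ x * b * x⁻¹ := hx.trans (conj_le (hub n).le)
  obtain ⟨m, hm1, hm2⟩ := word_bd hbx hgb hgb' c
  obtain ⟨m', hm1', hm2'⟩ := word_bd hbx hhb hhb' c
  set β := x ^ c * b * (x ^ c)⁻¹ with hβ
  have hβ1 : 1 < β := conj_gt_one hmax
  set w := (x ^ (c+1) * g * (x ^ (c+1))⁻¹)⁻¹ * E x g (c+1) with hw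
  set w' := (x ^ (c+1) * h * (x ^ (c+1))⁻¹)⁻¹ * E x h (c+1) with hw'
  have hle : β ^ m ≤ β ^ (m+m'+1) := pow_le_pow_right' hβ1.le (by omega)
  have hle' : β ^ m' ≤ β ^ (m+m'+1) := pow_le_pow_right' hβ1.le (by omega)
  have hfin := cl (x := w⁻¹) (y := w'⁻¹) (one_lt_pow' hβ1 (show m + m' + 1 ≠ 0 by omega)) (hm2.trans hle)
    (by rw [inv_inv]; exact hm1.trans hle) (hm2'.trans hle') (by rw [inv_inv]; exact hm1'.trans hle') (n * (m + m' + 1))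
  have hcomm : w⁻¹ * w'⁻¹ * w⁻¹⁻¹ * w'⁻¹⁻¹ = x ^ (c+1) * u0 * (x ^ (c+1))⁻¹ := by
    set σh := x ^ (c+1) * h * (x ^ (c+1))⁻¹ with hσh
    set σg := x ^ (c+1) * g * (x ^ (c+1))⁻¹ with hσg
    set e1 := E x g (c+1) with he1
    set e2 := E x h (c+1) with he2
    have hσgJ : σg ∈ J := hJ.conj_mem _ hg _
    have hσhJ : σh ∈ J := hJ.conj_mem _ hh _
    have he1J : e1 ∈ J := hEJ _ _ hg _
    have he2J : e2 ∈ J := hEJ _ _ hh _
    have hwJ : w ∈ J := J.mul_mem (J.inv_mem hσgJ) he1J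
    have hwJ' : w' ∈ J := J.mul_mem (J.inv_mem hσhJ) he2J
    have f1 : x ^ (c+1) * u0 * (x ^ (c+1))⁻¹ = σg * σh * σg⁻¹ * σh⁻¹ := by rw [hu0, hσh, hσg]; group
    have f2 : σg = e1 * w⁻¹ := by rw [hw]; group
    have f3 : σh = e2 * w'⁻¹ := by rw [hw']; group
    have c1 : ∀ t ∈ J, Commute e1 t := fun t ht => (hcl1 t ht e1 (hc' x g)).symm
    have c2 : ∀ t ∈ J, Commute e2 t := fun t ht => (hcl1 t ht e2 (hc' x h)).symm
    rw [f1, f2, f3]
    have g1 : e1 * w⁻¹ * (e2 * w'⁻¹) * (e1 * w⁻¹)⁻¹ * (e2 * w'⁻¹)⁻¹ =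
        e1 * (w⁻¹ * e2 * w'⁻¹ * w) * e1⁻¹ * w' * e2⁻¹ := by group
    have k1 : (w⁻¹ * e2 * w'⁻¹ * w) ∈ J := J.mul_mem (J.mul_mem (J.mul_mem (J.inv_mem hwJ) he2J) (J.inv_mem hwJ')) hwJ
    have g2 : e1 * (w⁻¹ * e2 * w'⁻¹ * w) * e1⁻¹ = w⁻¹ * e2 * w'⁻¹ * w := by rw [(c1 _ k1).eq]; group
    rw [g1, g2]
    have g3 : w⁻¹ * e2 = e2 * w⁻¹ := ((c2 _ (J.inv_mem hwJ)).eq).symm
    rw [g3]
    have k2 : (w⁻¹ * w'⁻¹ * w * w') ∈ J :=
      J.mul_mem (J.mul_mem (J.mul_mem (J.inv_mem hwJ) (J.inv_mem hwJ')) hwJ) hwJ'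
    have g4 : e2 * w⁻¹ * w'⁻¹ * w * w' * e2⁻¹ = e2 * (w⁻¹ * w'⁻¹ * w * w') * e2⁻¹ := by group
    rw [g4, (c2 _ k2).eq]; group
  rw [hcomm] at hfin
  have hfin2 : (x ^ (c+1) * u * (x ^ (c+1))⁻¹) ^ (n * (m + m' + 1)) < β ^ (m + m' + 1) := by
    rcases huu with h | h
    · rw [h]; exact hfin.1
    · rw [h]
      have e : x ^ (c+1) * u0⁻¹ * (x ^ (c+1))⁻¹ = (x ^ (c+1) * u0 * (x ^ (c+1))⁻¹)⁻¹ := by group
      rw [e]; exact hfin.2
  have h9 := pow_le_pow_left' (beta_le hx c) (m + m' + 1)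
  rw [← pow_mul] at h9
  exact absurd hfin2 (not_lt_of_ge h9)

end core
end H8OD
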